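import Pool.Agent.Helper42.AV.RD
import Pool.Agent.Helper75.UN.SR
import Pool.Agent.Helper54.MT.Iso

/-!
Project MC (MP_b8862a_ag). An irreducible Lie algebra of operators of trace zero which contains
`P - d`, where `P` is an idempotent whose rank is prime to the dimension, is simple.
-/

set_option autoImplicit false
set_option linter.unusedSectionVars false

open Module

attribute [local instance 100] LieRing.ofAssociativeRing

namespace Pool.Agent.Helper98.MC

open MTP UN AV Pool.Agent.Helper54.MT

variable {K V : Type*} [Field K] [AddCommGroup V] [Module K V]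

/-- the identity is a faithful representation in the sense of `Rs` -/
lemma rs_id : Rs (⊤ : Submodule K (Module.End K V)) (LinearMap.id : End K V →ₗ[K] End K V) where
  mul := fun _ _ _ _ => trivial
  hom := fun _ _ _ _ => rfl
  inj := fun _ _ h => h
  surj := fun φ => ⟨φ, trivial, rfl⟩
  mult := ⟨1, one_pos, fun x _ => by simp, fun x _ => by simp⟩

variable [CharZero K] [IsAlgClosed K] [FiniteDimensional K V]

/-- the trace of an idempotent -/
lemma trace_idem {P : End K V} (hP : P * P = P) :
    LinearMap.trace K V P = (finrank K (LinearMap.range P) : K) := by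
  have h : IsIdempotentElem P := hP
  exact (LinearMap.IsIdempotentElem.isProj_range (f := P) h).trace

/-- a nonzero subspace stable under one of two commuting spaces of operators is everything, if
this space contains `P - d` with rank prime to the dimension -/
lemma top_of_stable {I J : Submodule K (End K V)} (h : Two I J) {P : End K V} (hP : P * P = P)
    {d : K} (hd : P - d • 1 ∈ I)
    (hcop : Nat.Coprime (finrank K (LinearMap.range P)) (finrank K V)) {W : Submodule K V}
    (hW : ∀ a ∈ I, ∀ w ∈ W, a w ∈ W) : W = ⊥ ∨ W = ⊤ := by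
  by_cases hW0 : W = ⊥
  · exact Or.inl hW0
  right
  have hPW : ∀ w ∈ W, P w ∈ W := by
    intro w hw
    have h1 := W.add_mem (hW _ hd w hw) (W.smul_mem d hw)
    rwa [LinearMap.sub_apply, LinearMap.smul_apply, Module.End.one_apply, sub_add_cancel] at h1
  have hPa : P ∈ Algebra.adjoin K (I : Set (End K V)) := by
    have h1 := add_mem (Algebra.subset_adjoin (R := K) (s := (I : Set (End K V))) hd)
      (Subalgebra.smul_mem _ (one_mem (Algebra.adjoin K (I : Set (End K V)))) d)
    rwa [sub_add_cancel] at h1
  have h1 := h.trace_mul hPa hW hPW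
  have hPP : P.restrict hPW * P.restrict hPW = P.restrict hPW := by
    ext w
    exact LinearMap.congr_fun hP w.1
  rw [trace_idem hP, trace_idem hPP] at h1
  have h2 : finrank K V * finrank K (LinearMap.range (P.restrict hPW)) =
      finrank K W * finrank K (LinearMap.range P) := by exact_mod_cast h1
  have h3 : finrank K V ∣ finrank K W :=
    Nat.Coprime.dvd_of_dvd_mul_right hcop.symm ⟨_, h2.symm⟩
  have h4 : 0 < finrank K W := by
    rw [Module.finrank_pos_iff_exists_ne_zero]
    obtain ⟨w, hw, hw0⟩ := Submodule.exists_mem_ne_zero_of_ne_bot hW0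
    exact ⟨⟨w, hw⟩, fun h => hw0 (congrArg Subtype.val h)⟩
  exact Submodule.eq_top_of_finrank_eq (le_antisymm (Submodule.finrank_le W) (Nat.le_of_dvd h4 h3))

/-- operators of trace zero commuting with a space of operators as before vanish -/
lemma eq_zero_of_comm {I J : Submodule K (End K V)} (h : Two I J) {P : End K V} (hP : P * P = P)
    {d : K} (hd : P - d • 1 ∈ I)
    (hcop : Nat.Coprime (finrank K (LinearMap.range P)) (finrank K V)) (h2 : 2 ≤ finrank K V)
    {x : End K V} (hx : x ∈ J) (htr : LinearMap.trace K V x = 0) : x = 0 := by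
  have hV : Nontrivial V := Module.nontrivial_of_finrank_pos (R := K) (by omega)
  obtain ⟨c, hc⟩ := RD.schur (S := (I : Set (End K V)))
    (fun U hU => top_of_stable h hP hd hcop hU) (x := x) (fun y hy => (h.comm y hy x hx).symm)
  rw [hc, map_smul, LinearMap.trace_one, smul_eq_mul] at htr
  have hn : (finrank K V : K) ≠ 0 := by
    rw [Nat.cast_ne_zero]; omega
  rw [hc, (mul_eq_zero.mp htr).resolve_right hn, zero_smul]

theorem simple_of_coprime {L : LieSubalgebra K (Module.End K V)}
    (hirr : ∀ W : Submodule K V, (∀ z ∈ L, ∀ w ∈ W, z w ∈ W) → W = ⊥ ∨ W = ⊤)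
    (htr : ∀ z ∈ L, LinearMap.trace K V z = 0) {P : Module.End K V} (hP : P * P = P) {d : K}
    (hd : P - d • 1 ∈ L)
    (hcop : Nat.Coprime (finrank K (LinearMap.range P)) (finrank K V))
    (h2 : 2 ≤ finrank K V) : LieAlgebra.IsSimple K L := by
  have hV : Nontrivial V := Module.nontrivial_of_finrank_pos (R := K) (by omega)
  set L' : Submodule K (End K V) := L.toSubmodule with hL'
  have hbr : ∀ x ∈ L', ∀ y ∈ L', x * y - y * x ∈ L' := fun x hx y hy => L.lie_mem hx hy
  have hred : Red L' := rs_id.red le_top hbr (fun U hU => hirr U hU) htr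
  have hss : (P - d • 1) * (P - d • 1) = (d - d * d) • (1 : End K V) +
      ((1 - 2 * d) • (1 : End K V)) * (P - d • 1) := by
    rw [smul_mul_assoc, one_mul, sub_mul, mul_sub, mul_smul_comm, mul_one, smul_mul_assoc, one_mul,
      hP]
    module
  have key : ∀ M N : Submodule K (End K V), IsId L' M → N ≤ L' → (∀ a ∈ M, ∀ b ∈ N, a * b = b * a) →
      (∀ z ∈ L', ∃ a ∈ M, z - a ∈ N) → P - d • 1 ∈ M → N = ⊥ := by
    intro M N hM hN hc hsum hs
    have hT : Two M N := by
      refine ⟨hc, fun W h3 h4 => hirr W fun z hz w hw => ?_⟩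
      obtain ⟨a, ha, hb⟩ := hsum z hz
      have e : z w = a w + (z - a) w := by rw [LinearMap.sub_apply]; abel
      rw [e]
      exact W.add_mem (h3 a ha w hw) (h4 _ hb w hw)
    rw [eq_bot_iff]
    intro x hx
    exact eq_zero_of_comm hT hP hs hcop h2 hx (htr x (hN hx))
  have hsmp : Smp L' := by
    intro M hML hMi
    have hM : IsId L' M := ⟨hML, hMi⟩
    have hO := orth_isId hbr hM
    rcases hred.sq_dich hM hd (w := (1 - 2 * d) • 1) (fun x _ => by simp) hss with h | h
    · right
      have h0 := key M (orth L' M) hM hO.1 (fun a ha b hb => hred.orth_comm hM ha hb)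
        (fun z hz => hred.sup_orth hM hz) h
      refine le_antisymm hML fun z hz => ?_
      obtain ⟨a, ha, hb⟩ := hred.sup_orth hM hz
      rw [h0, Submodule.mem_bot, sub_eq_zero] at hb
      rwa [hb]
    · left
      refine key (orth L' M) M hO hML (fun a ha b hb => (hred.orth_comm hM hb ha).symm)
        (fun z hz => ?_) h
      obtain ⟨a, ha, hb⟩ := hred.sup_orth hM hz
      exact ⟨z - a, hb, by rwa [sub_sub_cancel]⟩
  have hnab : ∃ x ∈ L', ∃ y ∈ L', x * y - y * x ≠ 0 := by
    by_contra hcon
    push Not at hcon
    have hz : ∀ x ∈ L', x = 0 := fun x hx =>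
      hred.cen x hx fun y hy => sub_eq_zero.1 (hcon x hx y hy)
    obtain ⟨v, hv⟩ := exists_ne (0 : V)
    rcases hirr (K ∙ v) (fun z hz' w _ => by rw [hz z hz']; exact Submodule.zero_mem _) with h | h
    · exact hv (Submodule.span_singleton_eq_bot.1 h)
    · have h3 := finrank_span_singleton (K := K) hv
      rw [h, finrank_top] at h3
      omega
  obtain ⟨x, hx, y, hy, hxy⟩ := hnab
  exact toLie_simple hbr hsmp hx hy hxy

end Pool.Agent.Helper98.MC
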